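import Pool.Agent.AT6.Stmts2
import Pool.Agent.Helper88_AT3.Loc
import Pool.Agent.Helper85_AT3.LSB

/-!
# Squad AT6, row LWD: the block of the centraliser of `W`
-/

open scoped BigOperators

noncomputable section

namespace Pool.Agent.PP.T6.H39

open Pool.Agent.Helper51_AWC Pool.Agent.Helper79_WRA Pool.Agent.PP Pool.Agent.PP.KF
open Pool.Agent.PP.K9 Pool.Agent.PP.K9.H97 Pool.Agent.PP.H75 Pool.Agent.PP.T3 Pool.Agent.PP.T2

attribute [local instance] Ideal.Quotient.field

section tools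

variable {F G : Type} [Field F] [Group G] [Finite G] {ℓ : ℕ} [Fact ℓ.Prime]

/-- the restriction to the centraliser of a `p`-subgroup -/
theorem idem_cent (hF : GoodF ℓ F) {e : G → F} (he : IsIdem e) {W X : Subgroup G}
    (hW : IsPGroup ℓ W) (hX : X = Subgroup.centralizer (W : Set G)) :
    IsIdem (fun t : X => e t) := by
  subst hX
  have hn : Subgroup.centralizer (W : Set G) ≤ Subgroup.normalizer (W : Set G) :=
    Subgroup.centralizer_le_normalizer _
  have h := (H20.brm ℓ F hF G W (Subgroup.centralizer (W : Set G)) hW le_rfl hn).2.2 e he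
  have h2 : (fun t : Subgroup.centralizer (W : Set G) => br W e t) =
      fun t : Subgroup.centralizer (W : Set G) => e t := by
    funext t
    exact H66.br_of_mem t.2
  rwa [h2] at h

/-- `br_V` is multiplicative on the idempotents of a subgroup containing `V` -/
theorem br_mulX (hF : GoodF ℓ F) {V X : Subgroup G} (hV : IsPGroup ℓ V) (hVX : V ≤ X)
    {b c : G → F} (hb : Ix X b) (hc : Ix X c) : br V (mulF b c) = mulF (br V b) (br V c) :=
  H66.br_mulF hF hV (fun p hp => (cj_eq_iff p b).1 (hb.inv (hVX hp)))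
    (fun p hp => (cj_eq_iff p c).1 (hc.inv (hVX hp)))

/-- the image of an idempotent of `X` under `br_V` -/
theorem ix_brX (hF : GoodF ℓ F) {V X : Subgroup G} (hV : IsPGroup ℓ V) (hVX : V ≤ X)
    (hCX : Subgroup.centralizer (V : Set G) ≤ X) {b : G → F} (hb : Ix X b) :
    Ix (Subgroup.centralizer (V : Set G)) (br V b) := by
  refine ⟨fun x hx => H66.br_of_not_mem hx, ?_, ?_⟩
  · intro x y
    change br V b (y * x * (y : G)⁻¹) = br V b x
    have hmem : (y : G) * x * (y : G)⁻¹ ∈ Subgroup.centralizer (V : Set G) :=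
      Subgroup.mul_mem _ (Subgroup.mul_mem _ y.2 x.2) (Subgroup.inv_mem _ y.2)
    rw [H66.br_of_mem hmem, H66.br_of_mem x.2]
    exact (cj_eq_iff (y : G) b).1 (hb.inv (hCX y.2)) x
  · rw [← mulF_res (Subgroup.centralizer (V : Set G)) _ (fun x hx => H66.br_of_not_mem hx),
      ← br_mulX hF hV hVX hb hb, hb.mul]

/-- existence of a block of `X` over `γ` -/
theorem exists_lw (hF : GoodF ℓ F) {e : G → F} {V : Subgroup G} {γ : G → F} (hL : Ld ℓ e V γ)
    {X : Subgroup G} (hVX : V ≤ X) (hCX : Subgroup.centralizer (V : Set G) ≤ X)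
    (heI : IsIdem (fun t : X => e t)) : ∃ f, Bx X f ∧ mulF (br V f) γ = γ := by
  have hbrE : br V (PP.ext0 X (fun t : X => e t)) = br V e := by
    funext g
    by_cases hg : g ∈ Subgroup.centralizer (V : Set G)
    · rw [H66.br_of_mem hg, H66.br_of_mem hg, H46.ext0_of_mem _ (hCX hg)]
    · rw [H66.br_of_not_mem hg, H66.br_of_not_mem hg]
  have hext_add : ∀ a b : X → F, PP.ext0 X (a + b) = PP.ext0 X a + PP.ext0 X b := by
    intro a b
    funext x
    by_cases hx : x ∈ X
    · rw [H46.ext0_of_mem _ hx, Pi.add_apply, Pi.add_apply, H46.ext0_of_mem _ hx,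
        H46.ext0_of_mem _ hx]
    · rw [H46.ext0_of_not_mem _ hx, Pi.add_apply, H46.ext0_of_not_mem _ hx,
        H46.ext0_of_not_mem _ hx, add_zero]
  have hext_zero : PP.ext0 X (0 : X → F) = 0 := by
    funext x
    by_cases hx : x ∈ X
    · rw [H46.ext0_of_mem _ hx]
      rfl
    · rw [H46.ext0_of_not_mem _ hx]
      rfl
  obtain ⟨b₀, hb₀, -, hL₀⟩ := H24.exists_blk
    (fun a : X → F => mulF (br V (PP.ext0 X a)) γ)
    (by
      show mulF (br V (PP.ext0 X 0)) γ = 0
      rw [hext_zero, H88.br_zero, mulF_zero_left])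
    (by
      intro a b
      show mulF (br V (PP.ext0 X (a + b))) γ =
        mulF (br V (PP.ext0 X a)) γ + mulF (br V (PP.ext0 X b)) γ
      rw [hext_add, H88.br_add, H24.mulF_add_l])
    heI
    (by
      show mulF (br V (PP.ext0 X (fun t : X => e t))) γ ≠ 0
      rw [hbrE, hL.und]
      exact hL.gam.ne)
  have hbx : Bx X (PP.ext0 X b₀) := by
    refine ⟨fun x hx => H46.ext0_of_not_mem _ hx, ?_⟩
    rw [H46.restr_ext0]
    exact hb₀
  refine ⟨PP.ext0 X b₀, hbx, ?_⟩
  have hix := ix_brX hF hL.tp.pg hVX hCX hbx.ix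
  rw [hix.comm hL.gam.ix]
  rcases hL.gam.dich' hix with h | h
  · exact h
  · exfalso
    apply hL₀
    show mulF (br V (PP.ext0 X b₀)) γ = 0
    rw [hix.comm hL.gam.ix, h]

/-- a block of `X` over `γ` is under `e` -/
theorem und_lw (hF : GoodF ℓ F) {e : G → F} {V : Subgroup G} {γ : G → F} (hL : Ld ℓ e V γ)
    {X : Subgroup G} (hVX : V ≤ X) (hCX : Subgroup.centralizer (V : Set G) ≤ X)
    (heI : IsIdem (fun t : X => e t)) {f : G → F} (hf : Bx X f) (hfg : mulF (br V f) γ = γ) :
    mulF (fun t : X => e t) (fun t : X => f t) = fun t : X => f t := by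
  have hEX : Ix X (PP.ext0 X (fun t : X => e t)) := by
    refine ⟨fun x hx => H46.ext0_of_not_mem _ hx, ?_⟩
    rw [H46.restr_ext0]
    exact heI
  have hbrE : br V (PP.ext0 X (fun t : X => e t)) = br V e := by
    funext g
    by_cases hg : g ∈ Subgroup.centralizer (V : Set G)
    · rw [H66.br_of_mem hg, H66.br_of_mem hg, H46.ext0_of_mem _ (hCX hg)]
    · rw [H66.br_of_not_mem hg, H66.br_of_not_mem hg]
  have hcomm : mulF f (PP.ext0 X (fun t : X => e t)) =
      mulF (PP.ext0 X (fun t : X => e t)) f := hf.ix.comm hEX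
  rcases hf.dich' hEX with h | h
  · rw [hcomm] at h
    have h1 := mulF_res X f (a := PP.ext0 X (fun t : X => e t)) hEX.supp
    rw [h, H46.restr_ext0] at h1
    exact h1.symm
  · exfalso
    apply hL.gam.ne
    have h1 := br_mulX hF hL.tp.pg hVX hf.ix hEX
    rw [h, H88.br_zero, hbrE] at h1
    calc γ = mulF (br V f) (mulF (br V e) γ) := by rw [hL.und, hfg]
      _ = mulF (mulF (br V f) (br V e)) γ := (mulF_assoc _ _ _).symm
      _ = 0 := by rw [← h1, mulF_zero_left]

/-- transfer of the defect group and of the inertial group -/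
theorem ld_lw (hF : GoodF ℓ F) {e : G → F} {V : Subgroup G} {γ : G → F} (hL : Ld ℓ e V γ)
    {X : Subgroup G} (hVX : V ≤ X) (hCX : Subgroup.centralizer (V : Set G) ≤ X)
    (heI : IsIdem (fun t : X => e t)) {f : G → F} (hf : Bx X f) (hfg : mulF (br V f) γ = γ) :
    Ld ℓ (fun t : X => f t) (V.subgroupOf X) (fun t : X => γ t) ∧
      ∀ t : X, t ∈ Tg (V.subgroupOf X) (fun t : X => γ t) ↔ (t : G) ∈ Tg V γ := by
  have hund := und_lw hF hL hVX hCX heI hf hfg
  have hVcard : Nat.card (V.subgroupOf X) = Nat.card V :=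
    Nat.card_congr (Subgroup.subgroupOfEquivOfLe hVX).toEquiv
  have hVp : IsPGroup ℓ (V.subgroupOf X) :=
    hL.tp.pg.of_equiv (Subgroup.subgroupOfEquivOfLe hVX).symm
  have heC : IsCl (fun t : X => e t) := fun x y => hL.blk.1.1 x y
  have hTb : Tp ℓ (fun t : X => f t) (V.subgroupOf X) := by
    refine ⟨hVp, H85.gd_of_gam hVX hCX hL.gam hfg, ?_⟩
    intro Q hQ hQb
    have h1 := gd_map (gd_of_mul hF heC hf.blk.1.1 hund hQ hQb)
    have hcard : Nat.card (Q.map X.subtype) = Nat.card Q :=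
      (Nat.card_congr (Q.equivMapOfInjective X.subtype X.subtype_injective).toEquiv).symm
    have h2 := hL.tp.mx _ (hQ.map X.subtype) h1
    rw [hcard] at h2
    rw [hVcard]
    exact h2
  refine ⟨H85.ld_of hVX hCX hL.ab hf.blk hL.gam hfg hTb, ?_⟩
  intro t
  rw [H85.Tg_eq hVX hCX hL.gam.supp, Subgroup.mem_subgroupOf]
  exact ⟨fun h => h.1, fun h => ⟨h, t.2⟩⟩

end tools

/-- row LWD -/
theorem lwd : LwdStmt := by
  intro ℓ _ M _ hM G _ _ e V γ hL W hWV
  have hF : GoodF ℓ (FF M) := H50.fld ℓ Fact.out M hM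
  have hVX : V ≤ Subgroup.centralizer (W : Set G) := by
    intro x hx
    rw [Subgroup.mem_centralizer_iff]
    intro q hq
    exact hL.ab q (hWV hq) x hx
  have hCX : Subgroup.centralizer (V : Set G) ≤ Subgroup.centralizer (W : Set G) :=
    Subgroup.centralizer_le (fun x hx => hWV hx)
  have heI := idem_cent hF hL.blk.1 (hL.tp.pg.to_le hWV) (rfl :
    Subgroup.centralizer (W : Set G) = Subgroup.centralizer (W : Set G))
  refine ⟨?_, ?_⟩
  · obtain ⟨f, h1, h2⟩ := exists_lw hF hL hVX hCX heI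
    exact ⟨f, h1, h2⟩
  · intro f hf
    exact ld_lw hF hL hVX hCX heI hf.blk hf.gam

end Pool.Agent.PP.T6.H39
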