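import Pool.Agent.AT6.Stmts2
import Pool.Agent.Helper88_AT8.Dor
import Pool.Agent.Helper88_AT3.Loc

/-!
# Squad AT6, row CND: when is the local block of `H` under a conjugate of a local block
-/

open scoped BigOperators

noncomputable section

namespace Pool.Agent.PP.T6.H39

open Pool.Agent.Helper51_AWC Pool.Agent.Helper79_WRA Pool.Agent.PP Pool.Agent.PP.KF
open Pool.Agent.PP.K9 Pool.Agent.PP.K9.H97 Pool.Agent.PP.H75 Pool.Agent.PP.T3 Pool.Agent.PP.T2

attribute [local instance] Ideal.Quotient.field

section tools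

variable {F G : Type} [Field F] [Group G] [Finite G]

/-- a conjugate of a block under `e` is under `e` -/
theorem und_cj {e : G → F} (he : IsCl e) {u u' w : G} (h : w * u' * w⁻¹ = u) {b : G → F}
    (hb : Bx (Cu u') b)
    (hund : mulF (fun t : Cu u' => e t) (fun t : Cu u' => b t) = fun t : Cu u' => b t) :
    mulF (fun t : Cu u => e t) (fun t : Cu u => cj w b t) = fun t : Cu u => cj w b t := by
  have hbx : Bx (Cu u) (cj w b) := T3.H49.bx_cj h hb
  have hres : ∀ (X : Subgroup G) (c : G → F), (∀ x, x ∉ X → c x = 0) →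
      (fun s : X => mulF e c s) = mulF (fun s : X => e s) (fun s : X => c s) := by
    intro X c hc
    rw [H20.mulF_comm_of_cl he c, mulF_res X e hc,
      H20.mulF_comm_of_cl (a := fun s : X => e s) (fun x y => he x y)]
  have h1 := hres (Cu u) (cj w b) hbx.supp
  have h2 := hres (Cu u') b hb.supp
  rw [← h1]
  funext s
  have he' : cj w e = e := cj_isCl w he
  have h3 : mulF e (cj w b) = cj w (mulF e b) := by
    rw [cj_mulF, he']
  have h4 : w⁻¹ * (s : G) * w ∈ Cu u' := (T3.H49.cu_conj h _).2 s.2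
  have h5 := congrFun (h2.trans hund) ⟨_, h4⟩
  show mulF e (cj w b) (s : G) = cj w b s
  rw [h3]
  exact h5

omit [Finite G] in
theorem cent_sub' {H V : Subgroup G} (hVH : V ≤ H) (t : H) :
    t ∈ Subgroup.centralizer ((V.subgroupOf H : Subgroup H) : Set H) ↔
      (t : G) ∈ Subgroup.centralizer (V : Set G) := by
  rw [Subgroup.mem_centralizer_iff, Subgroup.mem_centralizer_iff]
  constructor
  · intro h q hq
    exact congrArg Subtype.val (h ⟨q, hVH hq⟩ hq)
  · intro h q hq
    exact Subtype.ext (h q hq)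

omit [Finite G] in
theorem br_sub {H V : Subgroup G} (hVH : V ≤ H) (a : G → F) :
    (fun t : H => br V a t) = br (V.subgroupOf H) (fun t : H => a t) := by
  funext t
  by_cases ht : (t : G) ∈ Subgroup.centralizer (V : Set G)
  · rw [H66.br_of_mem ht, H66.br_of_mem ((cent_sub' hVH t).2 ht)]
  · rw [H66.br_of_not_mem ht, H66.br_of_not_mem (fun h => ht ((cent_sub' hVH t).1 h))]

end tools

/-- the core of row CND, for a general name of the subgroup -/
theorem cnd_core (fus : FusStmt) {ℓ : ℕ} [Fact ℓ.Prime] {M : Ideal (integralClosure ℤ ℂ)}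
    [M.IsMaximal] (hM : (ℓ : integralClosure ℤ ℂ) ∈ M) {G : Type} [Group G] [Finite G]
    {e : G → FF M} {V : Subgroup G} {γ : G → FF M} (hL : Ld ℓ e V γ) {W : Subgroup G}
    (hWV : W ≤ V) {H : Subgroup G} (hH : H = Subgroup.centralizer (W : Set G)) {f : G → FF M}
    {v : G} (hv : v ∈ V) {b : G → FF M} (hb : Lc e V γ v b) {v' : H} (hv' : (v' : G) ∈ V)
    {V' : Subgroup H} (hV' : V' = V.subgroupOf H) {γ' : H → FF M} (hγ' : γ' = fun t : H => γ t)
    {g' : H → FF M} (hg' : Lc (fun t : H => f t) V' γ' v' g') {w : G} (hw : w * v * w⁻¹ = v')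
    {h : G → FF M} (hh : h = cj w b) :
    ((∃ t ∈ Tg V γ, t * v * t⁻¹ = v') → mulF (fun t : H => h t) g' = g') ∧
      ((¬ ∃ t ∈ Tg V γ, t * v * t⁻¹ = v') → mulF (fun t : H => h t) g' = 0) := by
  have hF : GoodF ℓ (FF M) := H50.fld ℓ Fact.out M hM
  have hVH : V ≤ H := by
    intro x hx
    rw [hH, Subgroup.mem_centralizer_iff]
    intro q hq
    exact hL.ab q (hWV hq) x hx
  have hCH : Subgroup.centralizer (V : Set G) ≤ H := by
    rw [hH]
    exact Subgroup.centralizer_le (fun x hx => hWV hx)
  have hVC : V ≤ Cu (v' : G) := H88.le_cu hL hv'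
  have hWp : IsPGroup ℓ W := hL.tp.pg.to_le hWV
  have hbx : Bx (Cu (v' : G)) h := by
    rw [hh]
    exact T3.H49.bx_cj hw hb.blk
  have hWi : H66.Inv W h := fun p hp => (cj_eq_iff p h).1 (hbx.ix.inv (hVC (hWV hp)))
  have hres : (fun t : H => br W h t) = fun t : H => h t := by
    funext t
    exact H66.br_of_mem (hH ▸ t.2)
  have hmulH : mulF (fun t : H => h t) (fun t : H => h t) = fun t : H => h t := by
    have h1 := H66.br_mulF hF hWp hWi hWi
    rw [hbx.mul] at h1
    have h2 := mulF_res H (br W h) (a := br W h)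
      (fun x hx => H66.br_of_not_mem (by rw [← hH]; exact hx))
    rw [← h1, hres] at h2
    exact h2.symm
  have hsupp : ∀ t : H, t ∉ Cu v' → h t = 0 := by
    intro t ht
    apply hbx.supp
    intro h1
    apply ht
    rw [Subgroup.mem_centralizer_singleton_iff] at h1 ⊢
    exact Subtype.ext h1
  have hix : Ix (Cu v') (fun t : H => h t) := by
    refine ⟨hsupp, ?_, ?_⟩
    · intro x y
      have hy : ((y : H) : G) ∈ Cu (v' : G) := by
        rw [Subgroup.mem_centralizer_singleton_iff]
        exact congrArg Subtype.val (Subgroup.mem_centralizer_singleton_iff.1 y.2)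
      exact (cj_eq_iff _ _).1 (hbx.ix.inv hy) ((x : H) : G)
    · have h1 := mulF_res (Cu v') (fun t : H => h t) (a := fun t : H => h t) hsupp
      rw [hmulH] at h1
      exact h1.symm
  have hV'p : IsPGroup ℓ V' := by
    rw [hV']
    exact hL.tp.pg.comap_subtype
  have hV'C : V' ≤ Cu v' := by
    intro x hx
    rw [hV'] at hx
    rw [Subgroup.mem_centralizer_singleton_iff]
    exact Subtype.ext (Subgroup.mem_centralizer_singleton_iff.1 (hVC hx))
  have hγ0 : γ' ≠ 0 := by
    intro h0
    apply hL.gam.ne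
    apply H75.eq_of_res (N := H) (fun x hx => hL.gam.supp x (fun h1 => hx (hCH h1)))
      (fun _ _ => rfl)
    rw [hγ'] at h0
    exact h0
  have hbr := H88.br_mul hF hV'p hV'C hix hg'.blk.ix
  have hcomm : mulF (fun t : H => h t) g' = mulF g' (fun t : H => h t) := hix.comm hg'.blk.ix
  have hequiv : mulF (br V' (fun t : H => h t)) γ' = fun t : H => mulF (br V h) γ t := by
    rw [hV', hγ', ← br_sub hVH h]
    exact (mulF_res H γ (a := br V h)
      (fun x hx => H66.br_of_not_mem (fun h1 => hx (hCH h1)))).symm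
  refine ⟨?_, ?_⟩
  · rintro ⟨t, ht, htv⟩
    have hcj : h = cj t b := by
      have h1 : t⁻¹ * w ∈ Cu v := by
        rw [Subgroup.mem_centralizer_singleton_iff]
        have h2 : w * v = v' * w := by
          rw [← hw]
          group
        have h3 : t⁻¹ * v' = v * t⁻¹ := by
          rw [← htv]
          group
        calc t⁻¹ * w * v = t⁻¹ * (w * v) := by group
          _ = (t⁻¹ * v') * w := by rw [h2]; group
          _ = v * (t⁻¹ * w) := by rw [h3]; group
      have h2 := hb.blk.ix.inv h1
      rw [hh]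
      conv_rhs => rw [← h2]
      rw [cj_cj]
      congr 1
      group
    have hlc := T8.H88.lc_cj hL ht htv hb
    rw [← hcj] at hlc
    have h1 : mulF (br V' (fun t : H => h t)) γ' = γ' := by
      rw [hequiv, hlc.gam, hγ']
    rcases hg'.blk.dich' hix with h2 | h2
    · rw [hcomm, h2]
    · exfalso
      apply hγ0
      rw [hcomm, h2, H88.br_zero] at hbr
      calc γ' = mulF (br V' (fun t : H => h t)) (mulF (br V' g') γ') := by rw [hg'.gam, h1]
        _ = mulF (mulF (br V' (fun t : H => h t)) (br V' g')) γ' := (mulF_assoc _ _ _).symm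
        _ = 0 := by rw [← hbr, mulF_zero_left]
  · intro hno
    rcases hg'.blk.dich' hix with h2 | h2
    · exfalso
      apply hno
      have h1 : mulF (br V' (fun t : H => h t)) γ' = γ' := by
        calc mulF (br V' (fun t : H => h t)) γ'
            = mulF (br V' (fun t : H => h t)) (mulF (br V' g') γ') := by rw [hg'.gam]
          _ = mulF (mulF (br V' (fun t : H => h t)) (br V' g')) γ' := (mulF_assoc _ _ _).symm
          _ = γ' := by rw [← hbr, hcomm, h2, hg'.gam]
      rw [hequiv, hγ'] at h1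
      have h3 : mulF (br V h) γ = γ :=
        H75.eq_of_res (N := H)
          (mulF_supp H (fun x hx => H66.br_of_not_mem (fun h1 => hx (hCH h1)))
            (fun x hx => hL.gam.supp x (fun h1 => hx (hCH h1))))
          (fun x hx => hL.gam.supp x (fun h1 => hx (hCH h1))) h1
      exact fus ℓ M hM G e V γ hL (v' : G) hv' v hv h b
        ⟨hbx, by rw [hh]; exact und_cj hL.blk.1.1 hw hb.blk hb.und, h3⟩ hb w hw hh.symm
    · rw [hcomm, h2]

/-- row CND -/
theorem cnd (fus : FusStmt) : CndStmt := by
  intro ℓ _ M _ hM G _ _ e V γ hL W hWV f hf v hv b hb v' hv' g' hg' w hw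
  exact cnd_core fus hM hL hWV rfl hv hb hv' rfl rfl hg' hw rfl

end Pool.Agent.PP.T6.H39
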